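import Pool.Agent.Q40.CL.Fin

set_option autoImplicit false

/-!
# The rank-zero criterion for Cohen-Lenstra limits of sparse `p`-adic matrices

For every prime `p` and every sequence of supports, the cokernel of the Haar-random matrix with
these supports converges to the Cohen-Lenstra distribution if and only if the probability that the
determinant of its reduction modulo `p` is nonzero converges to `∏_{i ≥ 1} (1 - p ^ (-i))`.
-/

namespace Pool.Agent.Results.MP_78de02_pr.RankZeroCriterion

open Filter Topology MeasureTheory Q40.CL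

theorem result (p : ℕ) [Fact p.Prime] [MeasurableSpace ℤ_[p]] [BorelSpace ℤ_[p]] :
    -- the events are measurable
    (∀ n : ℕ, MeasurableSet {X : Fin n → Fin n → ℤ_[p] | (redMod X).det ≠ 0} ∧
      ∀ (G : Type) [AddCommGroup G] [Finite G], (∃ k : ℕ, Nat.card G = p ^ k) →
        MeasurableSet {X : Fin n → Fin n → ℤ_[p] | Nonempty (cok X ≃+ G)}) ∧
    -- the criterion
    ∀ σ : (n : ℕ) → Fin n → Set (Fin n),
      (∀ (G : Type) [AddCommGroup G] [Finite G], (∃ k : ℕ, Nat.card G = p ^ k) →
        Tendsto (fun n => (law p (σ n)).real {X | Nonempty (cok X ≃+ G)}) atTop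
          (𝓝 (clMass p G))) ↔
      Tendsto (fun n => (law p (σ n)).real {X | (redMod X).det ≠ 0}) atTop (𝓝 (cConst p)) := by
  refine ⟨fun n => ⟨measurable_det, ?_⟩, criterion⟩
  rintro G _ _ ⟨k, hk⟩
  exact measurable_cok (pow_smul_eq_zero hk)

end Pool.Agent.Results.MP_78de02_pr.RankZeroCriterion
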